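import Pool.Agent.Y839.Mon.Names

/-!
# Random monster groups, lattices and linear groups

For an arbitrary sequence of finite graphs, infinitely many of which contain a cycle, almost every
random monster group is hereditarily super-rigid with respect to discrete subgroups of second
countable groups, and one null set works for all linear groups over all fields, for all residually
finite groups and for all subgroups of finitely presented groups; the images have at most two
elements. Conversely super-rigidity with respect to one discrete subgroup with an element of
infinite order requires infinitely many graphs with a cycle.
-/

set_option autoImplicit false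

namespace Pool.Agent.Results.MP_a330b1_al.AllLattices

open MeasureTheory Pool.Agent.H862R3.Monster Pool.Agent.Y839.Mon

universe u

/-- (1) The standing assumptions of the problem imply that infinitely many of the graphs contain a
cycle. (2) If infinitely many of the graphs contain a cycle, then for almost every labelling
simultaneously: subgroups of finite index have index at most `2`, and homomorphisms from them to
the members of a given sequence of discrete subgroups of second countable groups, to any linear
group over a field, to any residually finite group, to any subgroup of a finitely presented group
take at most two values. (3) For every discrete subgroup `G` of a second countable group with an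
element of infinite order, super-rigidity with respect to `G`, hereditary super-rigidity with
respect to `G`, and the existence of infinitely many graphs with a cycle are equivalent. -/
theorem result :
    StandingInfCyc ∧
    ∀ (k j : ℕ) (hk : 2 ≤ k) (_ : 1 ≤ j)
      (V : ℕ → Type) [∀ n, Finite (V n)] (Ω : ∀ n, SimpleGraph (V n))
      (L : ℕ → Type u) [∀ i, Group (L i)] [∀ i, TopologicalSpace (L i)]
      [∀ i, IsTopologicalGroup (L i)] [∀ i, SecondCountableTopology (L i)]
      (G : ∀ i, Subgroup (L i)), (∀ i, DiscreteTopology (G i)) →
      (InfCyc Ω → AlmostAll (Tpow k j hk) Ω (fun i => G i)) ∧
      ∀ i, (∃ g : G i, ¬ IsOfFinOrder g) → Crit (Tpow k j hk) Ω (G i) := by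
  refine ⟨standingInfCyc, ?_⟩
  intro k j hk hj V _ Ω L _ _ _ _ G hG
  have hc : ∀ i, Countable (G i) := by
    intro i
    have := hG i
    exact TopologicalSpace.separableSpace_iff_countable.mp inferInstance
  refine ⟨fun hΩ => uni hk hΩ (good_Tpow hk hj) (quot_mem_Ev_Tpow hk) (fun i => G i), ?_⟩
  intro i hg
  exact crit hk (good_Tpow hk hj) (quot_mem_Ev_Tpow hk) j (pow_mem_Tpow j hk) (G i) hg

end Pool.Agent.Results.MP_a330b1_al.AllLattices
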